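import Mathlib
import Pool.Agent.Helper65.HF.StN

/-! HF module SB1. -/

namespace Pool.Agent.Helper58.HF

open Pool.Agent.Helper65.HF

/-- `exp u ≤ 1 + u (1 + v)` for `0 ≤ u ≤ v ≤ 1`. -/
theorem exp_le_aux {u v : ℝ} (h0 : 0 ≤ u) (h1 : u ≤ v) (h2 : v ≤ 1) :
    Real.exp u - 1 ≤ u * (1 + v) := by
  have h := Real.abs_exp_sub_one_sub_id_le (x := u) (by rw [abs_of_nonneg h0]; linarith)
  have h' := (abs_le.mp h).2
  nlinarith [mul_nonneg h0 (sub_nonneg.mpr h1)]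

/-- The bound for `μ b`. -/
theorem mu_bound {d M K : ℕ} {L b C2 : ℝ} (hM : 1 ≤ M) (hMK : M ≤ K) (hL : 0 ≤ L)
    (hC2 : 0 < C2) (hb : b ≤ C2 * (M : ℝ) ^ (d - 1)) :
    L / ((K : ℝ) ^ (d - 1) * Real.sqrt K) * b ≤ C2 * (L / Real.sqrt M) := by
  have hm : (0 : ℝ) < M := by exact_mod_cast hM
  have hk : (0 : ℝ) < K := lt_of_lt_of_le hm (by exact_mod_cast hMK)
  have hMK' : (M : ℝ) ≤ K := by exact_mod_cast hMK
  have hs : 0 < Real.sqrt M := Real.sqrt_pos.mpr hm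
  have hsk : 0 < Real.sqrt K := Real.sqrt_pos.mpr hk
  have hss : Real.sqrt M ≤ Real.sqrt K := Real.sqrt_le_sqrt hMK'
  have hp : (M : ℝ) ^ (d - 1) ≤ (K : ℝ) ^ (d - 1) := pow_le_pow_left₀ hm.le hMK' _
  have hkp : (0 : ℝ) < (K : ℝ) ^ (d - 1) := pow_pos hk _
  have h1 : L / ((K : ℝ) ^ (d - 1) * Real.sqrt K) * b ≤
      L / ((K : ℝ) ^ (d - 1) * Real.sqrt K) * (C2 * (K : ℝ) ^ (d - 1)) := by
    refine mul_le_mul_of_nonneg_left (hb.trans ?_) (by positivity)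
    exact mul_le_mul_of_nonneg_left hp hC2.le
  have h2 : L / ((K : ℝ) ^ (d - 1) * Real.sqrt K) * (C2 * (K : ℝ) ^ (d - 1)) =
      C2 * (L / Real.sqrt K) := by
    field_simp
  have h3 : L / Real.sqrt K ≤ L / Real.sqrt M := div_le_div_of_nonneg_left hL hs hss
  calc _ ≤ _ := h1
    _ = C2 * (L / Real.sqrt K) := h2
    _ ≤ _ := mul_le_mul_of_nonneg_left h3 hC2.le

theorem pSB1 : sSB1 := by
  intro j d c1 C1 C2 hj hjd hc1 hC1 hC2
  refine ⟨2 * C2 * (C1 / c1 + C2), min (c1 / (2 * C1)) (1 / C2), max 1 ⌈2 * C2 / c1⌉₊,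
    by positivity, by positivity, ?_⟩
  intro M K L a b b' W A g x y0 y1 hM hMK hL hLt hb1 hb2 ha0 ha hb' hW0 hW hA hhyp hy1 hy0
  have hM1 : 1 ≤ M := le_trans (le_max_left _ _) hM
  have hM2 : 2 * C2 / c1 ≤ (M : ℝ) :=
    le_trans (Nat.le_ceil _) (by exact_mod_cast le_trans (le_max_right _ _) hM)
  have hm : (1 : ℝ) ≤ M := by exact_mod_cast hM1
  have hm0 : (0 : ℝ) < M := lt_of_lt_of_le one_pos hm
  have hs : 0 < Real.sqrt M := Real.sqrt_pos.mpr hm0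
  have hss : Real.sqrt M * Real.sqrt M = M := Real.mul_self_sqrt hm0.le
  set s := Real.sqrt M with hsdef
  obtain ⟨t, ht⟩ : ∃ t, t = L / s := ⟨_, rfl⟩
  have hLts : L = t * s := by rw [ht]; field_simp
  have ht0 : 0 ≤ t := by rw [ht]; positivity
  have htt : t ≤ min (c1 / (2 * C1)) (1 / C2) := by
    rw [ht, div_le_iff₀ hs]; exact hLt
  have ht1 : t ≤ c1 / (2 * C1) := htt.trans (min_le_left _ _)
  have ht2 : t ≤ 1 / C2 := htt.trans (min_le_right _ _)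
  have hC2t : C2 * t ≤ 1 := by
    rw [le_div_iff₀ hC2] at ht2; linarith
  obtain ⟨q, hq⟩ : ∃ q, q = C1 / c1 := ⟨_, rfl⟩
  have hq0 : 0 ≤ q := by rw [hq]; positivity
  have hqt : q * t ≤ 1 / 2 := by
    rw [hq]
    calc C1 / c1 * t ≤ C1 / c1 * (c1 / (2 * C1)) :=
          mul_le_mul_of_nonneg_left ht1 (by positivity)
      _ = 1 / 2 := by field_simp
  have hC1q : C1 = q * c1 := by rw [hq]; field_simp
  -- powers
  have hQ0 : (0 : ℝ) < (M : ℝ) ^ (d - 2) := pow_pos hm0 _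
  have hP0 : (0 : ℝ) < (M : ℝ) ^ (d - j - 1) := pow_pos hm0 _
  have hd1 : (M : ℝ) ^ (d - 1) = (M : ℝ) ^ (d - 2) * M := by
    rw [← pow_succ]; congr 1; omega
  have hdj : (M : ℝ) ^ (d - j) = (M : ℝ) ^ (d - j - 1) * M := by
    rw [← pow_succ]; congr 1; omega
  have hdj2 : (M : ℝ) ^ (d - j) ≤ (M : ℝ) ^ (d - 2) := pow_le_pow_right₀ hm (by omega)
  have hd10 : (0 : ℝ) < (M : ℝ) ^ (d - 1) := pow_pos hm0 _
  have hb0 : 0 < b := lt_of_lt_of_le (by positivity) hb1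
  -- (1)
  have hW' : W ≤ t * (M : ℝ) ^ (d - 1) := by
    refine hW.trans (le_of_eq ?_)
    rw [hd1, hLts]
    calc (M : ℝ) ^ (d - 2) * (s * (t * s)) = (M : ℝ) ^ (d - 2) * (t * (s * s)) := by ring
      _ = t * ((M : ℝ) ^ (d - 2) * M) := by rw [hss]; ring
  have hCW : C1 * W ≤ q * t * b := by
    calc C1 * W ≤ C1 * (t * (M : ℝ) ^ (d - 1)) := mul_le_mul_of_nonneg_left hW' hC1.le
      _ = q * t * (c1 * (M : ℝ) ^ (d - 1)) := by rw [hC1q]; ring
      _ ≤ q * t * b := mul_le_mul_of_nonneg_left hb1 (by positivity)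
  obtain ⟨Lo, hLo⟩ : ∃ Lo, Lo = b - C1 * W := ⟨_, rfl⟩
  have hLo1 : b * (1 - q * t) ≤ Lo := by rw [hLo]; linarith
  have hLo2 : b / 2 ≤ Lo := by
    refine le_trans ?_ hLo1
    have := mul_le_mul_of_nonneg_left hqt hb0.le
    linarith
  have hLo0 : 0 < Lo := lt_of_lt_of_le (by positivity) hLo2
  -- (2)
  have haLo : a ≤ Lo := by
    refine le_trans ?_ hLo2
    have h1 : a ≤ C2 * (M : ℝ) ^ (d - 2) := ha.trans (mul_le_mul_of_nonneg_left hdj2 hC2.le)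
    have h2 : 2 * C2 ≤ c1 * M := by
      rw [div_le_iff₀ hc1] at hM2; linarith
    have h3 : 2 * C2 * (M : ℝ) ^ (d - 2) ≤ c1 * M * (M : ℝ) ^ (d - 2) :=
      mul_le_mul_of_nonneg_right h2 hQ0.le
    have h4 : c1 * M * (M : ℝ) ^ (d - 2) = c1 * (M : ℝ) ^ (d - 1) := by rw [hd1]; ring
    linarith
  obtain ⟨w, hw⟩ : ∃ w, w = a / Lo := ⟨_, rfl⟩
  have hw0 : 0 ≤ w := by rw [hw]; positivity
  have hw1 : w ≤ 1 := by rw [hw, div_le_one hLo0]; exact haLo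
  have hwL : w * Lo = a := by rw [hw]; field_simp
  -- (3)
  have hx : x - y1 ≤ (y0 - y1) * w := by
    have h1 : (x - y1) * Lo ≤ (y0 - y1) * w * Lo := by
      rw [mul_assoc, hwL, hLo]; exact hhyp
    exact le_of_mul_le_mul_right h1 hLo0
  obtain ⟨μ, hμ⟩ : ∃ μ, μ = L / ((K : ℝ) ^ (d - 1) * Real.sqrt K) := ⟨_, rfl⟩
  rw [← hμ] at hy1 hy0 ⊢
  have hμ0 : 0 ≤ μ := by rw [hμ]; positivity
  obtain ⟨F, hF⟩ : ∃ F, F = A * Real.exp (-(μ * g)) := ⟨_, rfl⟩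
  have hF0 : 0 < F := by rw [hF]; positivity
  have hy0' : y0 ≤ F * Real.exp (μ * b') := by
    refine hy0.trans (le_of_eq ?_)
    rw [hF, mul_assoc, ← Real.exp_add]
    congr 2; ring
  have hub : μ * b ≤ C2 * t := by
    rw [hμ, ht]; exact mu_bound hM1 hMK hL hC2 hb2
  have hexp : Real.exp (μ * b') - 1 ≤ μ * b * (1 + C2 * t) := by
    have h1 : Real.exp (μ * b') ≤ Real.exp (μ * b) :=
      Real.exp_le_exp.mpr (mul_le_mul_of_nonneg_left hb' hμ0)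
    have h2 := exp_le_aux (mul_nonneg hμ0 hb0.le) hub hC2t
    linarith
  -- (4)
  obtain ⟨a', ha'⟩ : ∃ a', a' = a + 2 * C2 * (C1 / c1 + C2) * L * ((M : ℝ) ^ (d - j - 1) * s) :=
    ⟨_, rfl⟩
  rw [← ha']
  have ha'1 : a * (1 + 2 * (q + C2) * t) ≤ a' := by
    have h1 : a' = a + 2 * C2 * (q + C2) * t * (M : ℝ) ^ (d - j) := by
      rw [ha', hdj, hLts, ← hss, hq]; ring
    rw [h1]
    have h2 := mul_le_mul_of_nonneg_left ha (show 0 ≤ 2 * (q + C2) * t by positivity)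
    linarith
  have hkey : w * (b * (1 + C2 * t)) ≤ a' := by
    have h1 : a * (b * (1 + C2 * t)) ≤ a' * Lo := by
      have h2 : 1 + C2 * t ≤ (1 + 2 * (q + C2) * t) * (1 - q * t) := by
        have h3 := mul_le_mul_of_nonneg_right hqt (show 0 ≤ 2 * (q + C2) * t by positivity)
        nlinarith
      have h4 : 0 ≤ 1 - q * t := by linarith
      have h5 : a * (1 + 2 * (q + C2) * t) * (b * (1 - q * t)) ≤ a' * Lo :=
        mul_le_mul ha'1 hLo1 (mul_nonneg hb0.le h4) (le_trans (by positivity) ha'1)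
      have h6 : a * b * (1 + C2 * t) ≤ a * b * ((1 + 2 * (q + C2) * t) * (1 - q * t)) :=
        mul_le_mul_of_nonneg_left h2 (by positivity)
      linarith
    have h7 : w * (b * (1 + C2 * t)) * Lo ≤ a' * Lo := by
      calc w * (b * (1 + C2 * t)) * Lo = w * Lo * (b * (1 + C2 * t)) := by ring
        _ = a * (b * (1 + C2 * t)) := by rw [hwL]
        _ ≤ _ := h1
    exact le_of_mul_le_mul_right h7 hLo0
  have hgoal : A * Real.exp (-(μ * (g - a'))) = F * Real.exp (μ * a') := by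
    rw [hF, mul_assoc, ← Real.exp_add]
    congr 2; ring
  rw [hgoal]
  have hea : 1 + μ * a' ≤ Real.exp (μ * a') := by
    have := Real.add_one_le_exp (μ * a'); linarith
  have h1 : x ≤ (1 - w) * y1 + w * y0 := by linarith
  have h2 : (1 - w) * y1 ≤ (1 - w) * F :=
    mul_le_mul_of_nonneg_left (by rw [hF]; exact hy1) (by linarith)
  have h3 : w * y0 ≤ w * (F * Real.exp (μ * b')) := mul_le_mul_of_nonneg_left hy0' hw0
  have h4 : w * (Real.exp (μ * b') - 1) ≤ μ * a' := by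
    calc w * (Real.exp (μ * b') - 1) ≤ w * (μ * b * (1 + C2 * t)) :=
          mul_le_mul_of_nonneg_left hexp hw0
      _ = μ * (w * (b * (1 + C2 * t))) := by ring
      _ ≤ μ * a' := mul_le_mul_of_nonneg_left hkey hμ0
  have h5 : F * (1 + w * (Real.exp (μ * b') - 1)) ≤ F * Real.exp (μ * a') :=
    mul_le_mul_of_nonneg_left (by linarith) hF0.le
  nlinarith

end Pool.Agent.Helper58.HF
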