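import Mathlib
import Pool.Agent.Helper65.HF.StN
import Pool.Agent.Helper58.HF.M_SB1

/-! HF module SA1. -/

namespace Pool.Agent.Helper58.HF

open Pool.Agent.Helper65.HF

/-- `u (1 - v) ≤ 1 - exp (-u)` for `0 ≤ u ≤ v ≤ 1`. -/
theorem exp_neg_aux {u v : ℝ} (h0 : 0 ≤ u) (h1 : u ≤ v) (h2 : v ≤ 1) :
    u * (1 - v) ≤ 1 - Real.exp (-u) := by
  have h := Real.abs_exp_sub_one_sub_id_le (x := -u) (by rw [abs_neg, abs_of_nonneg h0]; linarith)
  have h' := (abs_le.mp h).2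
  nlinarith [mul_nonneg h0 (sub_nonneg.mpr h1)]

theorem pSA1 : sSA1 := by
  intro j d c1 C1 C2 hj hjd hc1 hC1 hC2
  refine ⟨C2 * (C1 / c1 + C1 + C2), min (c1 / (2 * C1)) (min (1 / (2 * C1)) (1 / (2 * C2))),
    max 1 ⌈C2 / c1⌉₊, by positivity, by positivity, ?_⟩
  intro M K L a b b' W V A g x y0 y1 hM hMK hL hLt hb1 hb2 ha1 ha hb' hW0 hW hV0 hV hA hhyp hy1 hy0
  have hM1 : 1 ≤ M := le_trans (le_max_left _ _) hM
  have hM2 : C2 / c1 ≤ (M : ℝ) :=
    le_trans (Nat.le_ceil _) (by exact_mod_cast le_trans (le_max_right _ _) hM)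
  have hm : (1 : ℝ) ≤ M := by exact_mod_cast hM1
  have hm0 : (0 : ℝ) < M := lt_of_lt_of_le one_pos hm
  have hs : 0 < Real.sqrt M := Real.sqrt_pos.mpr hm0
  have hss : Real.sqrt M * Real.sqrt M = M := Real.mul_self_sqrt hm0.le
  set s := Real.sqrt M with hsdef
  obtain ⟨t, ht⟩ : ∃ t, t = L / s := ⟨_, rfl⟩
  have hLts : L = t * s := by rw [ht]; field_simp
  have ht0 : 0 ≤ t := by rw [ht]; positivity
  have htt : t ≤ min (c1 / (2 * C1)) (min (1 / (2 * C1)) (1 / (2 * C2))) := by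
    rw [ht, div_le_iff₀ hs]; exact hLt
  have ht1 : t ≤ c1 / (2 * C1) := htt.trans (min_le_left _ _)
  have ht2 : t ≤ 1 / (2 * C1) := htt.trans ((min_le_right _ _).trans (min_le_left _ _))
  have ht3 : t ≤ 1 / (2 * C2) := htt.trans ((min_le_right _ _).trans (min_le_right _ _))
  have hC2t : C2 * t ≤ 1 / 2 := by
    rw [le_div_iff₀ (by positivity)] at ht3; linarith
  have hC1t : C1 * t ≤ 1 / 2 := by
    rw [le_div_iff₀ (by positivity)] at ht2; linarith
  obtain ⟨q, hq⟩ : ∃ q, q = C1 / c1 := ⟨_, rfl⟩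
  have hq0 : 0 ≤ q := by rw [hq]; positivity
  have hqt : q * t ≤ 1 / 2 := by
    rw [hq]
    calc C1 / c1 * t ≤ C1 / c1 * (c1 / (2 * C1)) :=
          mul_le_mul_of_nonneg_left ht1 (by positivity)
      _ = 1 / 2 := by field_simp
  have hC1q : C1 = q * c1 := by rw [hq]; field_simp
  have hVt : V ≤ t := by rw [ht]; exact hV
  -- powers
  have hP0 : (0 : ℝ) < (M : ℝ) ^ (d - j - 1) := pow_pos hm0 _
  have hdj : (M : ℝ) ^ (d - j) = (M : ℝ) ^ (d - j - 1) * M := by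
    rw [← pow_succ]; congr 1; omega
  have hdj0 : (0 : ℝ) < (M : ℝ) ^ (d - j) := pow_pos hm0 _
  have hd1 : (M : ℝ) ^ (d - 1) = (M : ℝ) ^ (d - 2) * M := by
    rw [← pow_succ]; congr 1; omega
  have hdj2 : (M : ℝ) ^ (d - j) ≤ (M : ℝ) ^ (d - 2) := pow_le_pow_right₀ hm (by omega)
  have hQ0 : (0 : ℝ) < (M : ℝ) ^ (d - 2) := pow_pos hm0 _
  have hd10 : (0 : ℝ) < (M : ℝ) ^ (d - 1) := pow_pos hm0 _
  have hb0 : 0 < b := lt_of_lt_of_le (by positivity) hb1
  have ha0 : 0 < a := lt_of_lt_of_le (by positivity) ha1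
  -- (1)
  have hW' : W ≤ t * (M : ℝ) ^ (d - j) := by
    refine hW.trans (le_of_eq ?_)
    rw [hdj, hLts]
    calc (M : ℝ) ^ (d - j - 1) * (s * (t * s)) = (M : ℝ) ^ (d - j - 1) * (t * (s * s)) := by ring
      _ = t * ((M : ℝ) ^ (d - j - 1) * M) := by rw [hss]; ring
  have hCW : C1 * W ≤ q * t * a := by
    calc C1 * W ≤ C1 * (t * (M : ℝ) ^ (d - j)) := mul_le_mul_of_nonneg_left hW' hC1.le
      _ = q * t * (c1 * (M : ℝ) ^ (d - j)) := by rw [hC1q]; ring
      _ ≤ q * t * a := mul_le_mul_of_nonneg_left ha1 (by positivity)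
  obtain ⟨Lo, hLo⟩ : ∃ Lo, Lo = a - C1 * W := ⟨_, rfl⟩
  have hLo1 : a * (1 - q * t) ≤ Lo := by rw [hLo]; linarith
  have hLo2 : Lo ≤ a := by
    rw [hLo]; nlinarith
  have hLo0 : 0 < Lo := by
    refine lt_of_lt_of_le ?_ hLo1
    have : 0 < 1 - q * t := by linarith
    positivity
  have hV1 : 0 < 1 + C1 * V := by positivity
  have hab : a ≤ b := by
    have h1 : a ≤ C2 * (M : ℝ) ^ (d - 2) := ha.trans (mul_le_mul_of_nonneg_left hdj2 hC2.le)
    have h2 : C2 ≤ c1 * M := by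
      rw [div_le_iff₀ hc1] at hM2; linarith
    have h3 : C2 * (M : ℝ) ^ (d - 2) ≤ c1 * M * (M : ℝ) ^ (d - 2) :=
      mul_le_mul_of_nonneg_right h2 hQ0.le
    have h4 : c1 * M * (M : ℝ) ^ (d - 2) = c1 * (M : ℝ) ^ (d - 1) := by rw [hd1]; ring
    linarith
  obtain ⟨w, hw⟩ : ∃ w, w = Lo / ((1 + C1 * V) * b) := ⟨_, rfl⟩
  have hw0 : 0 ≤ w := by rw [hw]; positivity
  have hw1 : w ≤ 1 := by
    rw [hw, div_le_one (by positivity)]
    have : b ≤ (1 + C1 * V) * b := by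
      have : 0 ≤ C1 * V * b := by positivity
      linarith
    linarith
  have hwL : w * ((1 + C1 * V) * b) = Lo := by rw [hw]; field_simp
  have hwb : a * ((1 - q * t) * (1 - C1 * t)) ≤ w * b := by
    have h1 : (1 - C1 * t) * (1 + C1 * V) ≤ 1 := by
      have h2 : (1 - C1 * t) * (1 + C1 * V) ≤ (1 - C1 * t) * (1 + C1 * t) := by
        refine mul_le_mul_of_nonneg_left ?_ (by linarith)
        have := mul_le_mul_of_nonneg_left hVt hC1.le
        linarith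
      have h3 : (1 - C1 * t) * (1 + C1 * t) ≤ 1 := by
        have : 0 ≤ (C1 * t) * (C1 * t) := mul_self_nonneg _
        linarith
      linarith
    have h4 : a * ((1 - q * t) * (1 - C1 * t)) * (1 + C1 * V) ≤ w * b * (1 + C1 * V) := by
      have h5 : w * b * (1 + C1 * V) = Lo := by rw [← hwL]; ring
      rw [h5]
      refine le_trans ?_ hLo1
      have h6 : 0 ≤ a * (1 - q * t) := mul_nonneg ha0.le (by linarith)
      calc a * ((1 - q * t) * (1 - C1 * t)) * (1 + C1 * V)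
          = a * (1 - q * t) * ((1 - C1 * t) * (1 + C1 * V)) := by ring
        _ ≤ a * (1 - q * t) * 1 := mul_le_mul_of_nonneg_left h1 h6
        _ = a * (1 - q * t) := by ring
    exact le_of_mul_le_mul_right h4 hV1
  -- (2)
  have hx : (y1 - y0) * w ≤ y1 - x := by
    have h0 : 0 < (1 + C1 * V) * b := by positivity
    have h1 : (y1 - y0) * w * ((1 + C1 * V) * b) ≤ (y1 - x) * ((1 + C1 * V) * b) := by
      rw [mul_assoc, hwL, hLo]
      calc (y1 - y0) * (a - C1 * W) ≤ (1 + C1 * V) * ((y1 - x) * b) := hhyp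
        _ = (y1 - x) * ((1 + C1 * V) * b) := by ring
    exact le_of_mul_le_mul_right h1 h0
  obtain ⟨μ, hμ⟩ : ∃ μ, μ = L / ((K : ℝ) ^ (d - 1) * Real.sqrt K) := ⟨_, rfl⟩
  rw [← hμ] at hy1 hy0 ⊢
  have hμ0 : 0 ≤ μ := by rw [hμ]; positivity
  obtain ⟨F, hF⟩ : ∃ F, F = A * Real.exp (μ * g) := ⟨_, rfl⟩
  have hF0 : 0 < F := by rw [hF]; positivity
  have hy0' : y0 ≤ F * Real.exp (-(μ * b)) := by
    refine hy0.trans ?_
    rw [hF, mul_assoc, ← Real.exp_add]
    refine mul_le_mul_of_nonneg_left (Real.exp_le_exp.mpr ?_) hA.le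
    have := mul_le_mul_of_nonneg_left hb' hμ0
    linarith
  have hub : μ * b ≤ C2 * t := by
    rw [hμ, ht]; exact mu_bound hM1 hMK hL hC2 hb2
  have hexp : μ * b * (1 - C2 * t) ≤ 1 - Real.exp (-(μ * b)) :=
    exp_neg_aux (mul_nonneg hμ0 hb0.le) hub (by linarith)
  obtain ⟨a', ha'⟩ : ∃ a', a' = a - C2 * (C1 / c1 + C1 + C2) * L * ((M : ℝ) ^ (d - j - 1) * s) :=
    ⟨_, rfl⟩
  rw [← ha']
  have ha'1 : a' ≤ a * (1 - (q + C1 + C2) * t) := by
    have h1 : a' = a - C2 * (q + C1 + C2) * t * (M : ℝ) ^ (d - j) := by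
      rw [ha', hdj, hLts, ← hss, hq]; ring
    rw [h1]
    have h2 := mul_le_mul_of_nonneg_left ha (show 0 ≤ (q + C1 + C2) * t by positivity)
    linarith
  have hkey : a' ≤ w * b * (1 - C2 * t) := by
    have h1 : a * ((1 - q * t) * (1 - C1 * t)) * (1 - C2 * t) ≤ w * b * (1 - C2 * t) :=
      mul_le_mul_of_nonneg_right hwb (by linarith)
    refine le_trans (ha'1.trans ?_) h1
    rw [mul_assoc]
    refine mul_le_mul_of_nonneg_left ?_ ha0.le
    have e1 : 0 ≤ q * t := by positivity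
    have e2 : 0 ≤ C1 * t := by positivity
    have e3 : 0 ≤ C2 * t := by positivity
    have e4 : 1 - q * t - C1 * t ≤ (1 - q * t) * (1 - C1 * t) := by
      have := mul_nonneg e1 e2; linarith
    have e5 : (1 - q * t - C1 * t) * (1 - C2 * t) ≤ (1 - q * t) * (1 - C1 * t) * (1 - C2 * t) :=
      mul_le_mul_of_nonneg_right e4 (by linarith)
    have e6 : 1 - (q + C1 + C2) * t ≤ (1 - q * t - C1 * t) * (1 - C2 * t) := by
      have := mul_nonneg (add_nonneg e1 e2) e3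
      linarith
    linarith
  have hgoal : A * Real.exp (μ * (g - a')) = F * Real.exp (-(μ * a')) := by
    rw [hF, mul_assoc, ← Real.exp_add]
    congr 2; ring
  rw [hgoal]
  have hea : 1 - μ * a' ≤ Real.exp (-(μ * a')) := by
    have := Real.add_one_le_exp (-(μ * a')); linarith
  have h1 : x ≤ (1 - w) * y1 + w * y0 := by linarith
  have h2 : (1 - w) * y1 ≤ (1 - w) * F :=
    mul_le_mul_of_nonneg_left (by rw [hF]; exact hy1) (by linarith)
  have h3 : w * y0 ≤ w * (F * Real.exp (-(μ * b))) := mul_le_mul_of_nonneg_left hy0' hw0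
  have h4 : μ * a' ≤ w * (1 - Real.exp (-(μ * b))) := by
    calc μ * a' ≤ μ * (w * b * (1 - C2 * t)) := mul_le_mul_of_nonneg_left hkey hμ0
      _ = w * (μ * b * (1 - C2 * t)) := by ring
      _ ≤ w * (1 - Real.exp (-(μ * b))) := mul_le_mul_of_nonneg_left hexp hw0
  have h5 : F * (1 - w * (1 - Real.exp (-(μ * b)))) ≤ F * Real.exp (-(μ * a')) :=
    mul_le_mul_of_nonneg_left (by linarith) hF0.le
  nlinarith

end Pool.Agent.Helper58.HF
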