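import Mathlib
import Pool.Agent.Helper65.HF.StN

/-! HF module TTA. -/

namespace Pool.Agent.Helper58.HF

open Pool.Agent.Helper65.HF Pool.Agent.Helper45

theorem wd_nonneg' (p M : ℕ) : 0 ≤ wd p M := by
  unfold wd; positivity

/-- `wd a M * M ^ b = wd (a + b) M`. -/
theorem wd_mul_pow (a b M : ℕ) : wd a M * (M : ℝ) ^ b = wd (a + b) M := by
  unfold wd; rw [pow_add]; ring

/-- The choice of the irregular regions, uniformly for all degrees. -/
theorem nus_uniform (hNUS : cNUS) (k : Type) [Field k] [CharZero k] (j d : ℕ) (cs η : ℝ)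
    (hj : 2 ≤ j) (hη : 0 < η) (hz : IsZ j d cs)
    (hz' : ∀ (c : ℕ) (cs' : ℝ), j ≤ c → c < d → IsZ j c cs' → cs + η < cs')
    (hB : ∀ c, j ≤ c → c < d → Below k j c) :
    ∃ θ C : ℝ, ∃ M0 : ℕ, 0 < θ ∧ θ < 1 ∧ 0 < C ∧ ∀ M ≥ M0, ∀ r : ℕ, 1 ≤ M →
    (r : ℝ) ≤ (cs + η) * (M : ℝ) ^ j → ∃ ν : ℕ → ℕ, (∀ s, s < j → ν s = 0) ∧
      (∃ ν0 : ℕ, (∀ s, ν s ≤ ν0) ∧ ν0 < M ∧ (ν0 : ℝ) ≤ θ * M) ∧
      ∀ s, j ≤ s → s < d → (∀ b, ν s ≤ b → b < M →
        H k j (b + 1) r s = H k j b r s + H k j (b + 1) r (s - 1)) ∧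
        (H k j (ν s) r s : ℝ) ≤ C * wd (s - 1) M := by
  have hN : ∀ s : ℕ, ∃ θ C : ℝ, ∃ M0 : ℕ, 0 < θ ∧ θ < 1 ∧ 0 < C ∧ (j ≤ s → s < d →
      ∀ M ≥ M0, ∀ r : ℕ, (r : ℝ) ≤ (cs + η) * (M : ℝ) ^ j → ∃ ν : ℕ, ν < M ∧ (ν : ℝ) ≤ θ * M ∧
      (∀ b, ν ≤ b → b < M → H k j (b + 1) r s = H k j b r s + H k j (b + 1) r (s - 1)) ∧
      (H k j ν r s : ℝ) ≤ C * wd (s - 1) M) := by
    intro s
    by_cases hs : j ≤ s ∧ s < d
    · obtain ⟨θ, C, M0, h1, h2, h3, h4⟩ := hNUS k j d cs η hj hη hz hz' hB s hs.1 hs.2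
      exact ⟨θ, C, M0, h1, h2, h3, fun _ _ => h4⟩
    · exact ⟨1 / 2, 1, 0, by norm_num, by norm_num, one_pos,
        fun h h' => absurd ⟨h, h'⟩ hs⟩
  choose θ C M0 h1 h2 h3 h4 using hN
  have hne : (Finset.range (d + 1)).Nonempty := ⟨0, by simp⟩
  refine ⟨(Finset.range (d + 1)).sup' hne θ, ∑ s ∈ Finset.range (d + 1), C s,
    ∑ s ∈ Finset.range (d + 1), M0 s, ?_, ?_, ?_, ?_⟩
  · exact lt_of_lt_of_le (h1 0) (Finset.le_sup' θ (by simp))
  · rw [Finset.sup'_lt_iff]; exact fun s _ => h2 s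
  · exact Finset.sum_pos (fun s _ => h3 s) hne
  intro M hM r hM1 hr
  have hMs : ∀ s, j ≤ s → s < d → M0 s ≤ M := by
    intro s _ hs
    exact le_trans (Finset.single_le_sum (f := M0) (fun _ _ => Nat.zero_le _)
      (Finset.mem_range.mpr (by omega))) hM
  have hex : ∀ s, ∃ ν : ℕ, (s < j → ν = 0) ∧ (d ≤ s → ν = 0) ∧ ν < M ∧
      (ν : ℝ) ≤ (Finset.range (d + 1)).sup' hne θ * M ∧
      (j ≤ s → s < d → (∀ b, ν ≤ b → b < M →
        H k j (b + 1) r s = H k j b r s + H k j (b + 1) r (s - 1)) ∧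
        (H k j ν r s : ℝ) ≤ (∑ s ∈ Finset.range (d + 1), C s) * wd (s - 1) M) := by
    intro s
    have hsup0 : 0 ≤ (Finset.range (d + 1)).sup' hne θ :=
      (lt_of_lt_of_le (h1 0) (Finset.le_sup' θ (by simp))).le
    by_cases hs : j ≤ s ∧ s < d
    · obtain ⟨ν, e1, e2, e3, e4⟩ := h4 s hs.1 hs.2 M (hMs s hs.1 hs.2) r hr
      refine ⟨ν, fun h => absurd h (by omega), fun h => absurd h (by omega), e1, ?_, ?_⟩
      · refine e2.trans (mul_le_mul_of_nonneg_right ?_ (Nat.cast_nonneg _))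
        exact Finset.le_sup' θ (Finset.mem_range.mpr (by omega))
      · intro _ _
        refine ⟨e3, e4.trans (mul_le_mul_of_nonneg_right ?_ (wd_nonneg' _ _))⟩
        exact Finset.single_le_sum (f := C) (fun i _ => (h3 i).le)
          (Finset.mem_range.mpr (by omega))
    · refine ⟨0, fun _ => rfl, fun _ => rfl, by omega, ?_, fun h h' => absurd ⟨h, h'⟩ hs⟩
      simp only [Nat.cast_zero]; positivity
  choose ν n1 n2 n3 n4 n5 using hex
  refine ⟨ν, n1, ⟨(Finset.range (d + 1)).sup ν, ?_, ?_, ?_⟩, fun s a b => n5 s a b⟩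
  · intro s
    by_cases hs : s < d + 1
    · exact Finset.le_sup (Finset.mem_range.mpr hs)
    · rw [n2 s (by omega)]; exact Nat.zero_le _
  · rw [Finset.sup_lt_iff (by exact hM1)]
    exact fun s _ => n3 s
  · obtain ⟨s, _, hs⟩ := Finset.exists_mem_eq_sup (Finset.range (d + 1)) hne ν
    rw [hs]; exact n4 s

theorem pTTA : sTTA := by
  intro hHUP hREC hEXA hNUS hMOV hTAH
  intro k _ _ j d cs η hj hjd hη hz hz' hB
  obtain ⟨θ, C, M0, hθ0, hθ1, hC, hN⟩ := nus_uniform hNUS k j d cs η hj hη hz hz' hB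
  obtain ⟨M1, hE⟩ := hEXA k j d cs η hj hη hz hz' hB
  have hθ' : 0 < 1 - θ := by linarith
  have hd0 : (0 : ℝ) < d := by exact_mod_cast (by omega : 0 < d)
  obtain ⟨A, hA⟩ : ∃ A, A = C * ((d - 1).factorial : ℝ) / (1 - θ) ^ (d - 1) := ⟨_, rfl⟩
  have hA0 : 0 < A := by
    rw [hA]
    have : (0 : ℝ) < ((d - 1).factorial : ℝ) := by exact_mod_cast Nat.factorial_pos _
    positivity
  refine ⟨d * C + d * A, M0 + M1 + 1, by positivity, ?_⟩
  intro M hM r hr
  have hM1 : 1 ≤ M := by omega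
  have hm0 : (0 : ℝ) < M := by exact_mod_cast hM1
  obtain ⟨ν, n1, ⟨ν0, n2, n3, n4⟩, n5⟩ := hN M (by omega) r hM1 hr
  have hE' := hE M (by omega) r hr
  have key := hTAH k j d M ν0 r ν (by omega) (by omega) n2 n3 n1 (fun s a b => (n5 s a b).1)
  have e1 : (H k j M r (d - j) : ℝ) = (EE j M r (d - j) : ℝ) := by
    have := hE' (d - j) (by omega)
    exact_mod_cast this
  have e2 : (H k j M r (d - 1) : ℝ) = (EE j M r (d - 1) : ℝ) := by
    have := hE' (d - 1) (by omega)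
    exact_mod_cast this
  have hmov : 0 ≤ (H k j M r d : ℝ) - H k j (M - 1) r d := by
    have := hMOV k j (M - 1) r d (by omega)
    rw [show M - 1 + 1 = M by omega] at this
    have h' : (H k j (M - 1) r d : ℝ) ≤ H k j M r d := by exact_mod_cast this
    linarith
  have hrr : 0 ≤ (H k j M r d : ℝ) - H k j M (r + 1) d := by
    have := (hHUP k j M r d (by omega)).2.2.2.1
    have h' : (H k j M (r + 1) d : ℝ) ≤ H k j M r d := by exact_mod_cast this
    linarith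
  have hH0 : (0 : ℝ) ≤ H k j M r (d - 1) := Nat.cast_nonneg _
  obtain ⟨R, hR⟩ : ∃ R, R = Real.sqrt (M * Real.log M) / M := ⟨_, rfl⟩
  have hR0 : 0 ≤ R := by rw [hR]; positivity
  -- left sum
  have hS1 : ∑ s ∈ Finset.Ico j (d - j + 1), (H k j (ν s) r s : ℝ) * (M : ℝ) ^ (d - j - s) ≤
      (d * C + d * A) * wd (d - j - 1) M := by
    have h1 : ∀ s ∈ Finset.Ico j (d - j + 1),
        (H k j (ν s) r s : ℝ) * (M : ℝ) ^ (d - j - s) ≤ C * wd (d - j - 1) M := by
      intro s hs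
      rw [Finset.mem_Ico] at hs
      have h2 := (n5 s hs.1 (by omega)).2
      calc (H k j (ν s) r s : ℝ) * (M : ℝ) ^ (d - j - s)
          ≤ C * wd (s - 1) M * (M : ℝ) ^ (d - j - s) :=
            mul_le_mul_of_nonneg_right h2 (by positivity)
        _ = C * (wd (s - 1) M * (M : ℝ) ^ (d - j - s)) := by ring
        _ = C * wd (d - j - 1) M := by
            rw [wd_mul_pow, show s - 1 + (d - j - s) = d - j - 1 by omega]
    refine (Finset.sum_le_sum h1).trans ?_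
    rw [Finset.sum_const, Nat.card_Ico, nsmul_eq_mul]
    have h3 : ((d - j + 1 - j : ℕ) : ℝ) ≤ d := by exact_mod_cast (by omega)
    have h4 : 0 ≤ C * wd (d - j - 1) M := mul_nonneg hC.le (wd_nonneg' _ _)
    have h5 : 0 ≤ d * A * wd (d - j - 1) M := by
      have := wd_nonneg' (d - j - 1) M; positivity
    have h6 := mul_le_mul_of_nonneg_right h3 h4
    linarith
  -- right sum
  have hS2 : ∑ s ∈ Finset.Ico j d, (H k j (ν s) r s : ℝ) * (M : ℝ) ^ (d - 1 - s) *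
      ((d - 1).factorial : ℝ) / ((M : ℝ) - ν0) ^ (d - 1) ≤ (d * C + d * A) * R := by
    have hMν : (1 - θ) * M ≤ (M : ℝ) - ν0 := by linarith
    have hMν0 : 0 < (1 - θ) * M := by positivity
    have hden : ((1 - θ) * M) ^ (d - 1) ≤ ((M : ℝ) - ν0) ^ (d - 1) :=
      pow_le_pow_left₀ hMν0.le hMν _
    have h1 : ∀ s ∈ Finset.Ico j d,
        (H k j (ν s) r s : ℝ) * (M : ℝ) ^ (d - 1 - s) *
        ((d - 1).factorial : ℝ) / ((M : ℝ) - ν0) ^ (d - 1) ≤ A * R := by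
      intro s hs
      rw [Finset.mem_Ico] at hs
      have h2 := (n5 s hs.1 hs.2).2
      have h3 : (H k j (ν s) r s : ℝ) * (M : ℝ) ^ (d - 1 - s) * ((d - 1).factorial : ℝ) ≤
          C * wd (d - 2) M * ((d - 1).factorial : ℝ) := by
        refine mul_le_mul_of_nonneg_right ?_ (Nat.cast_nonneg _)
        calc (H k j (ν s) r s : ℝ) * (M : ℝ) ^ (d - 1 - s)
            ≤ C * wd (s - 1) M * (M : ℝ) ^ (d - 1 - s) :=
              mul_le_mul_of_nonneg_right h2 (by positivity)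
          _ = C * (wd (s - 1) M * (M : ℝ) ^ (d - 1 - s)) := by ring
          _ = C * wd (d - 2) M := by
              rw [wd_mul_pow, show s - 1 + (d - 1 - s) = d - 2 by omega]
      have h4 : 0 ≤ C * wd (d - 2) M * ((d - 1).factorial : ℝ) := by
        have := wd_nonneg' (d - 2) M; positivity
      calc (H k j (ν s) r s : ℝ) * (M : ℝ) ^ (d - 1 - s) *
            ((d - 1).factorial : ℝ) / ((M : ℝ) - ν0) ^ (d - 1)
          ≤ C * wd (d - 2) M * ((d - 1).factorial : ℝ) / ((M : ℝ) - ν0) ^ (d - 1) :=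
            div_le_div_of_nonneg_right h3 (le_trans (by positivity) hden)
        _ ≤ C * wd (d - 2) M * ((d - 1).factorial : ℝ) / ((1 - θ) * M) ^ (d - 1) :=
            div_le_div_of_nonneg_left h4 (by positivity) hden
        _ = A * R := by
            rw [hA, hR, mul_pow, wd, show d - 1 = (d - 2) + 1 by omega, pow_succ (M : ℝ)]
            have hMp : (M : ℝ) ^ (d - 2) ≠ 0 := by positivity
            field_simp
    refine (Finset.sum_le_sum h1).trans ?_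
    rw [Finset.sum_const, Nat.card_Ico, nsmul_eq_mul]
    have h3 : ((d - j : ℕ) : ℝ) ≤ d := by exact_mod_cast (by omega)
    have h4 : 0 ≤ A * R := by positivity
    have h5 : 0 ≤ d * C * R := by positivity
    have h6 := mul_le_mul_of_nonneg_right h3 h4
    linarith
  rw [← e1, ← e2, ← hR]
  calc ((H k j M r d : ℝ) - H k j (M - 1) r d) *
      ((H k j M r (d - j) : ℝ) - (d * C + d * A) * wd (d - j - 1) M)
      ≤ ((H k j M r d : ℝ) - H k j (M - 1) r d) * ((H k j M r (d - j) : ℝ) -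
        ∑ s ∈ Finset.Ico j (d - j + 1), (H k j (ν s) r s : ℝ) * (M : ℝ) ^ (d - j - s)) :=
        mul_le_mul_of_nonneg_left (by linarith) hmov
    _ ≤ _ := key
    _ ≤ (1 + (d * C + d * A) * R) *
        (((H k j M r d : ℝ) - H k j M (r + 1) d) * H k j M r (d - 1)) :=
        mul_le_mul_of_nonneg_right (by linarith) (mul_nonneg hrr hH0)

end Pool.Agent.Helper58.HF
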